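import Pool.Agent.Helper12.RQ.Goals

open MeasureTheory Set Filter Topology Metric
open scoped ENNReal NNReal

namespace Pool.Agent.Helper70.RQ

open Pool.Agent.Helper12.RQ

/-- bounds for the primitive of a bounded function -/
lemma prim_bounds {g : ℝ → ℝ} {g₁ g₂ : ℝ} (hg : ∀ a b : ℝ, IntervalIntegrable g volume a b)
    (h₁ : ∀ t, g₁ ≤ g t) (h₂ : ∀ t, g t ≤ g₂) (t₀ s t : ℝ) (hst : s ≤ t) :
    g₁ * (t - s) ≤ (∫ x in t₀..t, g x) - (∫ x in t₀..s, g x) ∧
      (∫ x in t₀..t, g x) - (∫ x in t₀..s, g x) ≤ g₂ * (t - s) := by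
  rw [intervalIntegral.integral_interval_sub_left (hg _ _) (hg _ _)]
  constructor
  · have := intervalIntegral.integral_mono_on hst (f := fun _ => g₁) (g := g)
      (_root_.intervalIntegrable_const) (hg _ _) (fun x _ => h₁ x)
    rw [intervalIntegral.integral_const, smul_eq_mul, mul_comm] at this
    exact this
  · have := intervalIntegral.integral_mono_on hst (f := g) (g := fun _ => g₂)
      (hg _ _) (_root_.intervalIntegrable_const) (fun x _ => h₂ x)
    rw [intervalIntegral.integral_const, smul_eq_mul, mul_comm] at this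
    exact this

theorem flux_match : StmtFLUX := by
  intro p hp D hD t₀ t₁ d₁ d₂ ht hd₁ hDb r₀ r₁ θ hr hθc hθpos hint
  have hp1 : 0 < p - 1 := by linarith
  set k : ℝ := 1 / (p - 1) with hk
  have hkpos : 0 < k := by positivity
  have hd₂ : 0 < d₂ := by
    by_contra hcon
    have h1 := (hDb t₀ ⟨le_rfl, ht.le⟩)
    have h2 := h1.1.trans h1.2
    rw [ENNReal.ofReal_of_nonpos (not_lt.mp hcon)] at h2
    exact (ENNReal.ofReal_pos.2 hd₁).ne' (le_antisymm h2 (zero_le))
  -- the real density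
  set Dr : ℝ → ℝ := fun t => (D t).toReal with hDr
  have hDtop : ∀ t ∈ Icc t₀ t₁, D t ≠ ⊤ := fun t ht => ((hDb t ht).2.trans_lt ENNReal.ofReal_lt_top).ne
  have hDof : ∀ t ∈ Icc t₀ t₁, D t = ENNReal.ofReal (Dr t) := fun t ht =>
    (ENNReal.ofReal_toReal (hDtop t ht)).symm
  have hDr1 : ∀ t ∈ Icc t₀ t₁, d₁ ≤ Dr t := fun t ht =>
    (ENNReal.ofReal_le_iff_le_toReal (hDtop t ht)).1 (hDb t ht).1
  have hDr2 : ∀ t ∈ Icc t₀ t₁, Dr t ≤ d₂ := fun t ht =>
    ENNReal.toReal_le_of_le_ofReal hd₂.le (hDb t ht).2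
  have hd12 : d₁ ≤ d₂ := (hDr1 t₀ ⟨le_rfl, ht.le⟩).trans (hDr2 t₀ ⟨le_rfl, ht.le⟩)
  have hDrm : Measurable Dr := hD.ennreal_toReal
  set g : ℝ → ℝ := (Icc t₀ t₁).piecewise (fun t => Dr t ^ (-k)) (fun _ => d₁ ^ (-k)) with hg
  have hgm : Measurable g :=
    Measurable.piecewise measurableSet_Icc (hDrm.pow_const _) measurable_const
  have hg_in : ∀ t ∈ Icc t₀ t₁, g t = Dr t ^ (-k) := fun t ht => Set.piecewise_eq_of_mem _ _ _ ht
  set g₁ : ℝ := d₂ ^ (-k) with hg₁
  set g₂ : ℝ := d₁ ^ (-k) with hg₂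
  have hg₁pos : 0 < g₁ := Real.rpow_pos_of_pos hd₂ _
  have hg1 : ∀ t, g₁ ≤ g t := by
    intro t
    by_cases h : t ∈ Icc t₀ t₁
    · rw [hg_in t h]
      exact Real.rpow_le_rpow_of_nonpos (hd₁.trans_le (hDr1 t h)) (hDr2 t h) (by linarith)
    · rw [hg, Set.piecewise_eq_of_notMem _ _ _ h]
      exact Real.rpow_le_rpow_of_nonpos hd₁ hd12 (by linarith)
  have hg2 : ∀ t, g t ≤ g₂ := by
    intro t
    by_cases h : t ∈ Icc t₀ t₁
    · rw [hg_in t h]
      exact Real.rpow_le_rpow_of_nonpos hd₁ (hDr1 t h) (by linarith)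
    · rw [hg, Set.piecewise_eq_of_notMem _ _ _ h]
  have hgint : ∀ a b : ℝ, IntervalIntegrable g volume a b := by
    intro a b
    refine (_root_.intervalIntegrable_const (c := g₂) (a := a) (b := b) (μ := volume)).mono_fun hgm.aestronglyMeasurable ?_
    filter_upwards with t
    rw [Real.norm_of_nonneg (hg₁pos.le.trans (hg1 t)),
      Real.norm_of_nonneg ((hg₁pos.le.trans (hg1 t)).trans (hg2 t))]
    exact hg2 t
  have hgloc : LocallyIntegrable g volume := by
    have h1 : LocallyIntegrable (fun _ : ℝ => g₂) volume := continuous_const.locallyIntegrable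
    refine h1.mono hgm.aestronglyMeasurable ?_
    filter_upwards with t
    rw [Real.norm_of_nonneg (hg₁pos.le.trans (hg1 t)),
      Real.norm_of_nonneg ((hg₁pos.le.trans (hg1 t)).trans (hg2 t))]
    exact hg2 t
  -- the extension of θ
  set θ' : ℝ → ℝ := fun s => θ (max r₀ (min r₁ s)) with hθ'
  have hmemI : ∀ s, max r₀ (min r₁ s) ∈ Icc r₀ r₁ := fun s =>
    ⟨le_max_left _ _, max_le hr.le (min_le_left _ _)⟩
  have hθ'c : Continuous θ' := hθc.comp_continuous (by fun_prop) hmemI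
  have hθ'eq : ∀ s ∈ Icc r₀ r₁, θ' s = θ s := by
    intro s hs
    rw [hθ']
    simp only
    rw [min_eq_right hs.2, max_eq_right hs.1]
  have hne : (Icc r₀ r₁).Nonempty := ⟨r₀, le_rfl, hr.le⟩
  obtain ⟨x₁, hx₁, hmin⟩ := isCompact_Icc.exists_isMinOn hne hθc
  obtain ⟨x₂, hx₂, hmax⟩ := isCompact_Icc.exists_isMaxOn hne hθc
  set a₁ : ℝ := θ x₁ with ha₁
  set a₂ : ℝ := θ x₂ with ha₂
  have ha₁pos : 0 < a₁ := hθpos x₁ hx₁
  have hθ'1 : ∀ s, a₁ ≤ θ' s := fun s => hmin (hmemI s)
  have hθ'2 : ∀ s, θ' s ≤ a₂ := fun s => hmax (hmemI s)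
  have ha₂pos : 0 < a₂ := hθpos x₂ hx₂
  have hθ'int : ∀ a b : ℝ, IntervalIntegrable θ' volume a b := fun a b =>
    hθ'c.intervalIntegrable a b
  set Th : ℝ → ℝ := fun r => ∫ s in r₀..r, θ' s with hTh
  have hThd : ∀ r, HasDerivAt Th (θ' r) r := fun r =>
    (hθ'c.integral_hasStrictDerivAt r₀ r).hasDerivAt
  have hThb : ∀ s t, s ≤ t → a₁ * (t - s) ≤ Th t - Th s ∧ Th t - Th s ≤ a₂ * (t - s) :=
    fun s t hst => prim_bounds hθ'int hθ'1 hθ'2 r₀ s t hst
  have hThmono : StrictMono Th := by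
    intro s t hst
    have := (hThb s t hst.le).1
    have h2 : 0 < a₁ * (t - s) := mul_pos ha₁pos (sub_pos.2 hst)
    linarith
  have hThcont : Continuous Th := continuous_iff_continuousAt.2 fun r => (hThd r).continuousAt
  have hThr0 : Th r₀ = 0 := intervalIntegral.integral_same
  have hThsurj : Function.Surjective Th := by
    apply hThcont.surjective
    · have h1 : Tendsto (fun t : ℝ => a₁ * (t - r₀)) atTop atTop :=
        Tendsto.const_mul_atTop ha₁pos (tendsto_atTop_add_const_right _ _ tendsto_id)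
      refine tendsto_atTop_mono' _ ?_ h1
      filter_upwards [eventually_ge_atTop r₀] with t ht
      have := (hThb r₀ t ht).1
      rw [hThr0] at this
      linarith
    · have h1 : Tendsto (fun t : ℝ => a₁ * (t - r₀)) atBot atBot :=
        Tendsto.const_mul_atBot ha₁pos (tendsto_atBot_add_const_right _ _ tendsto_id)
      refine tendsto_atBot_mono' _ ?_ h1
      filter_upwards [eventually_le_atBot r₀] with t ht
      have := (hThb t r₀ ht).1
      rw [hThr0] at this
      nlinarith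
  let H : ℝ ≃o ℝ := (StrictMono.orderIsoOfSurjective Th hThmono hThsurj).symm
  have hTH : ∀ y, Th (H y) = y := fun y =>
    (StrictMono.orderIsoOfSurjective Th hThmono hThsurj).apply_symm_apply y
  have hHT : ∀ y, H (Th y) = y := fun y =>
    (StrictMono.orderIsoOfSurjective Th hThmono hThsurj).symm_apply_apply y
  have hHd : ∀ y, HasDerivAt H (θ' (H y))⁻¹ y := by
    intro y
    refine HasDerivAt.of_local_left_inverse (f := Th) H.continuous.continuousAt (hThd _)
      (ha₁pos.trans_le (hθ'1 _)).ne' (Eventually.of_forall hTH)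
  set Gi : ℝ → ℝ := fun t => ∫ s in t₀..t, g s with hGi
  have hGib : ∀ s t, s ≤ t → g₁ * (t - s) ≤ Gi t - Gi s ∧ Gi t - Gi s ≤ g₂ * (t - s) :=
    fun s t hst => prim_bounds hgint hg1 hg2 t₀ s t hst
  have hGi0 : Gi t₀ = 0 := intervalIntegral.integral_same
  have hGi1 : 0 < Gi t₁ := by
    have := (hGib t₀ t₁ ht.le).1
    have h2 : 0 < g₁ * (t₁ - t₀) := mul_pos hg₁pos (sub_pos.2 ht)
    linarith
  set L : ℝ := Th r₁ with hL
  have hLpos : 0 < L := by
    have := hThmono hr
    rw [hThr0] at this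
    exact this
  have hLeq : L = ∫ s in r₀..r₁, θ s := by
    rw [hL, hTh]
    simp only
    refine intervalIntegral.integral_congr fun s hs => ?_
    rw [uIcc_of_le hr.le] at hs
    exact hθ'eq s hs
  have hGieq : ∫⁻ t in Ioo t₀ t₁, D t ^ (-k) = ENNReal.ofReal (Gi t₁) := by
    rw [hGi]
    simp only
    rw [intervalIntegral.integral_of_le ht.le, integral_Ioc_eq_integral_Ioo,
      ofReal_integral_eq_lintegral_ofReal]
    · refine setLIntegral_congr_fun measurableSet_Ioo fun t htt => ?_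
      have htt' : t ∈ Icc t₀ t₁ := ⟨htt.1.le, htt.2.le⟩
      rw [hDof t htt', hg_in t htt', ENNReal.ofReal_rpow_of_pos (hd₁.trans_le (hDr1 t htt'))]
    · exact ((intervalIntegrable_iff_integrableOn_Ioo_of_le ht.le).1 (hgint t₀ t₁))
    · filter_upwards with t
      exact hg₁pos.le.trans (hg1 t)
  have hLG : L ≤ Gi t₁ := by
    rw [← hLeq] at hint
    change ENNReal.ofReal L ≤ ∫⁻ t in Ioo t₀ t₁, D t ^ (-k) at hint
    rw [hGieq] at hint
    exact (ENNReal.ofReal_le_ofReal_iff hGi1.le).1 hint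
  set v : ℝ := L / Gi t₁ with hv
  have hvpos : 0 < v := div_pos hLpos hGi1
  have hv1 : v ≤ 1 := (div_le_one hGi1).2 hLG
  have hvG : v * Gi t₁ = L := div_mul_cancel₀ _ hGi1.ne'
  set h : ℝ → ℝ := fun t => H (v * Gi t) with hh
  have hTh_h : ∀ t, Th (h t) = v * Gi t := fun t => hTH _
  have hht0 : h t₀ = r₀ := by
    rw [hh]
    simp only
    rw [hGi0, mul_zero, ← hThr0, hHT]
  have hht1 : h t₁ = r₁ := by
    rw [hh]
    simp only
    rw [hvG, hL, hHT]
  have hhmono : StrictMono h := by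
    intro s t hst
    apply H.strictMono
    apply mul_lt_mul_of_pos_left _ hvpos
    have := (hGib s t hst.le).1
    have h2 : 0 < g₁ * (t - s) := mul_pos hg₁pos (sub_pos.2 hst)
    linarith
  refine ⟨h, v * g₁ / a₂, v * g₂ / a₁, by positivity, hht0, hht1, ?_, ?_⟩
  · intro s t _ hst _
    have h1 := hGib s t hst
    have h2 := hThb (h s) (h t) (hhmono.monotone hst)
    rw [hTh_h, hTh_h] at h2
    constructor
    · rw [div_mul_eq_mul_div, div_le_iff₀ ha₂pos]
      nlinarith [mul_le_mul_of_nonneg_left h1.1 hvpos.le, h2.2]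
    · rw [div_mul_eq_mul_div, le_div_iff₀ ha₁pos]
      nlinarith [mul_le_mul_of_nonneg_left h1.2 hvpos.le, h2.1]
  · intro ψ hψ
    -- the good points
    have hae := _root_.LocallyIntegrable.ae_hasDerivAt_integral hgloc
    have hnull : volume {t | ¬ ∀ c, HasDerivAt (fun x => ∫ (t : ℝ) in c..x, g t) (g t) t} = 0 := hae
    set N := toMeasurable volume {t | ¬ ∀ c, HasDerivAt (fun x => ∫ (t : ℝ) in c..x, g t) (g t) t}
      with hN
    have hNm : MeasurableSet N := measurableSet_toMeasurable _ _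
    have hN0 : volume N = 0 := by rw [hN, measure_toMeasurable, hnull]
    set S := Ioo t₀ t₁ \ N with hS
    have hSm : MeasurableSet S := measurableSet_Ioo.diff hNm
    have hGd : ∀ t ∈ S, HasDerivAt Gi (g t) t := by
      intro t ht
      by_contra hcon
      apply ht.2
      apply subset_toMeasurable
      intro hall
      exact hcon (hall t₀)
    have hhd : ∀ t ∈ S, HasDerivAt h ((θ' (h t))⁻¹ * (v * g t)) t := by
      intro t ht
      have h1 : HasDerivAt (fun t => v * Gi t) (v * g t) t := (hGd t ht).const_mul v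
      exact (hHd (v * Gi t)).comp t h1
    have hSae : S =ᵐ[volume] Ioo t₀ t₁ := by
      rw [hS]
      exact sdiff_null_ae_eq_self hN0
    have hSI : ∀ t ∈ S, t ∈ Icc t₀ t₁ := fun t ht => ⟨ht.1.1.le, ht.1.2.le⟩
    have hhI : ∀ t ∈ S, h t ∈ Ioo r₀ r₁ := by
      intro t ht
      rw [← hht0, ← hht1]
      exact ⟨hhmono ht.1.1, hhmono ht.1.2⟩
    rw [← setLIntegral_congr hSae]
    have key : ∀ t ∈ S, ψ (h t) * ‖deriv h t‖ₑ ^ p * D t ≤
        ENNReal.ofReal |(θ' (h t))⁻¹ * (v * g t)| *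
          (ψ (h t) * ENNReal.ofReal (θ (h t) ^ (1 - p))) := by
      intro t ht
      have htI := hSI t ht
      have hθt : θ' (h t) = θ (h t) := hθ'eq _ ⟨(hhI t ht).1.le, (hhI t ht).2.le⟩
      have hθp : 0 < θ (h t) := hθpos _ ⟨(hhI t ht).1.le, (hhI t ht).2.le⟩
      have hDp : 0 < Dr t := hd₁.trans_le (hDr1 t htI)
      have hgp : 0 < g t := hg₁pos.trans_le (hg1 t)
      rw [(hhd t ht).deriv, hθt]
      set y : ℝ := (θ (h t))⁻¹ * (v * g t) with hy
      have hyp : 0 < y := by positivity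
      rw [abs_of_pos hyp, Real.enorm_of_nonneg hyp.le, ENNReal.ofReal_rpow_of_pos hyp, hDof t htI,
        mul_assoc, ← ENNReal.ofReal_mul (by positivity), mul_comm (ENNReal.ofReal y), mul_assoc]
      refine mul_le_mul_right ?_ _
      rw [← ENNReal.ofReal_mul (by positivity)]
      apply ENNReal.ofReal_le_ofReal
      have e1 : y ^ p = y * y ^ (p - 1) := by
        conv_lhs => rw [show p = 1 + (p - 1) by ring, Real.rpow_add hyp, Real.rpow_one]
      have e2 : y ^ (p - 1) = θ (h t) ^ (1 - p) * (v ^ (p - 1) * g t ^ (p - 1)) := by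
        rw [hy, Real.mul_rpow (by positivity) (by positivity),
          Real.mul_rpow hvpos.le hgp.le, Real.inv_rpow hθp.le, ← Real.rpow_neg hθp.le]
        congr 2
        ring
      have e3 : g t ^ (p - 1) = (Dr t)⁻¹ := by
        rw [hg_in t htI, ← Real.rpow_mul hDp.le, show -k * (p - 1) = -1 by
          rw [hk]; field_simp, Real.rpow_neg_one]
      rw [e1, e2, e3]
      have e4 : y * (θ (h t) ^ (1 - p) * (v ^ (p - 1) * (Dr t)⁻¹)) * Dr t =
          (θ (h t) ^ (1 - p) * y) * v ^ (p - 1) := by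
        field_simp
      rw [e4]
      refine mul_le_of_le_one_right (by positivity) ?_
      exact Real.rpow_le_one hvpos.le hv1 hp1.le
    calc ∫⁻ t in S, ψ (h t) * ‖deriv h t‖ₑ ^ p * D t
        ≤ ∫⁻ t in S, ENNReal.ofReal |(θ' (h t))⁻¹ * (v * g t)| *
          (ψ (h t) * ENNReal.ofReal (θ (h t) ^ (1 - p))) := setLIntegral_mono' hSm key
      _ = ∫⁻ s in h '' S, ψ s * ENNReal.ofReal (θ s ^ (1 - p)) :=
          (lintegral_image_eq_lintegral_abs_deriv_mul hSm
            (fun t ht => (hhd t ht).hasDerivWithinAt) hhmono.injective.injOn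
            (fun s => ψ s * ENNReal.ofReal (θ s ^ (1 - p)))).symm
      _ ≤ ∫⁻ s in Ioo r₀ r₁, ψ s * ENNReal.ofReal (θ s ^ (1 - p)) := by
          refine lintegral_mono_set ?_
          rintro _ ⟨t, ht, rfl⟩
          exact hhI t ht

end Pool.Agent.Helper70.RQ
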